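import Pool.Agent.R550.HS

set_option autoImplicit false

/-!
# The gap theorem for Hitting Set
-/

namespace Pool.Agent.R550.HS

open Pool.Agent.NPC Pool.Agent.H688R2.RInd Pool.Agent.TH688.Mis
open Pool.Agent.H243R3.TP (Clause numSat)

variable {α : Type} [TEnc α]

theorem poly_comp {G : α → List (ℕ × ℕ)} {N : α → ℕ} {H : α → List (List ℕ)} (hG : Poly G)
    (hN : Poly N) (hH : Poly H) : Poly (fun a => comp (G a) (N a) (H a)) := by
  unfold comp
  fun_prop

theorem poly_powc {N : α → ℕ} (hN : Poly N) (t : ℕ) : Poly (fun a => N a ^ t) := by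
  induction t with
  | zero => simpa using NPC.Poly.const 1
  | succ t ih => simpa only [pow_succ] using NPC.Poly.mul ih hN

theorem poly_hyp {G : α → List (ℕ × ℕ)} {N : α → ℕ} (hG : Poly G) (hN : Poly N) (t : ℕ) :
    Poly (fun a => hyp (G a) (N a) t) := by
  induction t with
  | zero => exact NPC.Poly.const _
  | succ t ih => exact poly_comp hG (poly_powc hN t) ih

theorem uPoly_powc {N : α → ℕ} (hN : UPoly N) (t : ℕ) : UPoly (fun a => N a ^ t) := by
  induction t with
  | zero => simpa using UPoly.const 1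
  | succ t ih => simpa only [pow_succ] using UPoly.mul ih hN

theorem poly_bE : Poly bE := by
  unfold bE
  have hR : Poly (fun φ : List Clause => List.range (3 * φ.length)) :=
    (UPoly.mul (UPoly.const 3) (UPoly.length Poly.id)).range
  refine Poly.flatMap (F := fun (φ : List Clause) a =>
    ((List.range (3 * φ.length)).filter fun b => adj (fg φ) a b).map fun b => (a, b)) hR ?_
  have hR' : Poly (fun p : List Clause × ℕ => List.range (3 * p.1.length)) :=
    hR.comp (Poly.fst Poly.id)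
  have hf : Poly (fun p : List Clause × ℕ => fg p.1) := poly_fg.comp (Poly.fst Poly.id)
  refine NPC.Poly.map (F := fun (p : List Clause × ℕ) b => (p.2, b)) ?_ (by fun_prop)
  refine Poly.filter (p := fun (p : List Clause × ℕ) b => adj (fg p.1) p.2 b) hR' ?_
  have hf' : Poly (fun p : (List Clause × ℕ) × ℕ => fg p.1.1) :=
    poly_fg.comp (Poly.fst (Poly.fst Poly.id))
  fun_prop

/-- powers amplify the gap -/
theorem pow_gap (c K : ℕ) (hK : 0 < K) : ∃ t, 0 < t ∧ ∀ m r : ℕ, 0 < m → m ≤ K * r →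
    c * (2 * m) ^ t < (2 * m + r) ^ t := by
  have hK' : (0 : ℝ) < K := by exact_mod_cast hK
  have h1 : (1 : ℝ) < 1 + 1 / (2 * K) := by
    have : (0 : ℝ) < 1 / (2 * K) := by positivity
    linarith
  obtain ⟨t, ht⟩ := pow_unbounded_of_one_lt (c : ℝ) h1
  refine ⟨t + 1, by omega, fun m r hm hr => ?_⟩
  have hm' : (0 : ℝ) < m := by exact_mod_cast hm
  have hr' : (m : ℝ) ≤ K * r := by exact_mod_cast hr
  have h2 : (2 * m : ℝ) * (1 + 1 / (2 * K)) ≤ 2 * m + r := by
    have h3 : (m : ℝ) / K ≤ r := by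
      rw [div_le_iff₀ hK']
      linarith
    have h4 : (2 * m : ℝ) * (1 + 1 / (2 * K)) = 2 * m + m / K := by
      field_simp
    linarith
  have h5 : (c : ℝ) * (2 * m) ^ (t + 1) < (2 * m + r) ^ (t + 1) := by
    have h6 : (1 : ℝ) + 1 / (2 * K) ≤ (1 + 1 / (2 * K)) := le_rfl
    have h7 : (c : ℝ) < (1 + 1 / (2 * K)) ^ (t + 1) := by
      refine ht.trans_le ?_
      exact pow_le_pow_right₀ h1.le (by omega)
    calc (c : ℝ) * (2 * m) ^ (t + 1) < (1 + 1 / (2 * K)) ^ (t + 1) * (2 * m) ^ (t + 1) :=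
          mul_lt_mul_of_pos_right h7 (by positivity)
      _ = ((2 * m) * (1 + 1 / (2 * K))) ^ (t + 1) := by rw [← mul_pow]; ring
      _ ≤ (2 * m + r) ^ (t + 1) := pow_le_pow_left₀ (by positivity) h2 _
  exact_mod_cast h5

/-- **Gap theorem for Hitting Set.** For every constant `c` there is a `t ≥ 1` such that every
language of `NP` reduces in polynomial time to the problem of telling the hypergraphs (all whose
hyperedges have `2 ^ t` entries) with a hitting set of size at most `k` from those for which every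
hitting set has size greater than `c * k`. Here `k = (2 m) ^ t`, the vertices are less than
`(3 m) ^ t` and there are at most `2 ^ (4 m (2 ^ t - 1))` hyperedges. -/
theorem gap (c : ℕ) : ∃ t : ℕ, 0 < t ∧ ∀ {L : Set (List Bool)}, InNP L →
    ∃ (m : List Bool → ℕ) (H : List Bool → List (List ℕ)), UPoly m ∧ Poly H ∧ ∀ x,
      0 < m x ∧ (∀ C ∈ H x, C.length = 2 ^ t) ∧ (∀ C ∈ H x, ∀ a ∈ C, a < (3 * m x) ^ t) ∧
      0 < (H x).length ∧ (H x).length ≤ 2 ^ (4 * m x * (2 ^ t - 1)) ∧
      (x ∈ L → ∃ X : Finset ℕ, Hits X (H x) ∧ X.card ≤ (2 * m x) ^ t) ∧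
      (x ∉ L → ∀ X : Finset ℕ, Hits X (H x) → c * (2 * m x) ^ t < X.card) := by
  have hK : 0 < DP.K0 := by
    unfold DP.K0 Pool.Agent.H243R3.PCP.c1
    norm_num
  obtain ⟨t, ht0, ht⟩ := pow_gap c DP.K0 hK
  refine ⟨t, ht0, fun {L} hL => ?_⟩
  obtain ⟨V, p, hV, hVL⟩ := hL
  obtain ⟨red, ext, hr1, _, hr3⟩ := DP.pcp hV p
  refine ⟨fun x => (red x).length, fun x => hyp (bE (red x)) (3 * (red x).length) t,
    UPoly.length hr1, poly_hyp (poly_bE.comp hr1) ?_ t, fun x => ?_⟩
  · have := UPoly.toPoly (UPoly.mul (UPoly.const 3) (UPoly.length hr1))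
    exact this
  have hG : ∀ e ∈ bE (red x), e.1 < 3 * (red x).length ∧ e.2 < 3 * (red x).length := by
    intro e he
    rw [mem_bE] at he
    exact ⟨he.1, he.2.1⟩
  obtain ⟨⟨a1, _⟩, a3, a4⟩ := hr3 x
  refine ⟨List.length_pos_of_ne_nil a1, hyp_width t, hyp_lt hG t,
    hyp_length_pos (bE_length_pos a1) t, hyp_length_le (bE_length _) t, ?_, ?_⟩
  · intro hx
    obtain ⟨A, _, hA⟩ := a3 ((hVL x).1 hx)
    have h1 := Pool.Agent.H243R3.PCP.unsat_add (red x) A
    have h2 : numSat (red x) A = (red x).length := by omega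
    obtain ⟨X, hX, hXc⟩ := bE_upper h2
    obtain ⟨Z, hZ, hZc⟩ := hyp_upper (N := 3 * (red x).length) hX t
    exact ⟨Z, hZ, hZc.trans (Nat.pow_le_pow_left hXc t)⟩
  · intro hx
    -- every assignment leaves many clauses unsatisfied
    obtain ⟨r, hr⟩ : ∃ r, r = ((red x).length + DP.K0 - 1) / DP.K0 := ⟨_, rfl⟩
    have hr1 : (red x).length ≤ DP.K0 * r := by
      rw [hr]
      have := Nat.lt_mul_div_succ ((red x).length + DP.K0 - 1) hK
      rw [Nat.mul_add] at this
      omega
    have hr2 : ∀ u, (red x).length ≤ DP.K0 * u → r ≤ u := by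
      intro u hu
      rw [hr]
      apply Nat.le_of_lt_succ
      rw [Nat.div_lt_iff_lt_mul hK]
      have : (u + 1) * DP.K0 = DP.K0 * u + DP.K0 := by ring
      rw [Nat.succ_eq_add_one, this]
      omega
    have h1 : ∀ A, numSat (red x) A + r ≤ (red x).length := by
      intro A
      have h2 := Pool.Agent.H243R3.PCP.unsat_add (red x) A
      have h3 : (red x).length ≤ DP.K0 * Pool.Agent.H243R3.PCP.unsat (red x) A := by
        by_contra hc2
        push Not at hc2
        apply hx
        rw [hVL x]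
        exact ⟨_, (a4 A hc2).1, (a4 A hc2).2⟩
      have h4 := hr2 _ h3
      omega
    intro X hX
    have h2 := hyp_lower hG (fun X hX => bE_lower h1 X hX) t X hX
    exact (ht _ r (List.length_pos_of_ne_nil a1) hr1).trans_le h2

end Pool.Agent.R550.HS
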