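import Pool.Agent.TH688.Mis

set_option autoImplicit false

/-!
# Hitting Set of constant width: arbitrarily large constant gaps are NP-hard

The base instance is the conflict graph of a 3-CNF formula (from the PCP theorem): its vertex cover
number is `2 m` if the formula is satisfiable and at least `(1 + 1 / (2 K0)) 2 m` otherwise. The
gap is amplified by composition: a vertex of the composition of a graph `G` with a hypergraph `H` is
a pair of a vertex of `G` and a vertex of `H`, and for every edge `i j` of `G` and all hyperedges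
`c`, `c'` of `H` there is the hyperedge `{i} × c ∪ {j} × c'`. The least size of a hitting set is
multiplicative.
-/

namespace Pool.Agent.R550.HS

open Pool.Agent.NPC Pool.Agent.H688R2.RInd Pool.Agent.TH688.Mis
open Pool.Agent.H243R3.TP (Clause numSat)

/-- `X` meets every member of the list `H`. -/
def Hits (X : Finset ℕ) (H : List (List ℕ)) : Prop := ∀ C ∈ H, ∃ a ∈ C, a ∈ X

/-- composition of a graph (list of edges) with a hypergraph on the vertices `0, …, N - 1` -/
def comp (G : List (ℕ × ℕ)) (N : ℕ) (H : List (List ℕ)) : List (List ℕ) :=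
  G.flatMap fun e => H.flatMap fun c => H.map fun c' =>
    (c.map fun a => e.1 * N + a) ++ (c'.map fun a => e.2 * N + a)

/-- iterated composition -/
def hyp (G : List (ℕ × ℕ)) (N : ℕ) : ℕ → List (List ℕ)
  | 0 => [[0]]
  | t + 1 => comp G (N ^ t) (hyp G N t)

theorem mem_comp {G : List (ℕ × ℕ)} {N : ℕ} {H : List (List ℕ)} {C : List ℕ} :
    C ∈ comp G N H ↔ ∃ e ∈ G, ∃ c ∈ H, ∃ c' ∈ H,
      C = (c.map fun a => e.1 * N + a) ++ (c'.map fun a => e.2 * N + a) := by
  simp only [comp, List.mem_flatMap, List.mem_map]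
  constructor
  · rintro ⟨e, he, c, hc, c', hc', rfl⟩
    exact ⟨e, he, c, hc, c', hc', rfl⟩
  · rintro ⟨e, he, c, hc, c', hc', rfl⟩
    exact ⟨e, he, c, hc, c', hc', rfl⟩

theorem hyp_lt {G : List (ℕ × ℕ)} {N : ℕ} (hG : ∀ e ∈ G, e.1 < N ∧ e.2 < N) :
    ∀ t, ∀ C ∈ hyp G N t, ∀ a ∈ C, a < N ^ t := by
  intro t
  induction t with
  | zero =>
    intro C hC a ha
    simp only [hyp, List.mem_singleton] at hC
    subst hC
    simp at ha
    simp [ha]
  | succ t ih =>
    intro C hC a ha
    obtain ⟨e, he, c, hc, c', hc', rfl⟩ := mem_comp.1 hC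
    have h1 := hG e he
    have key : ∀ i < N, ∀ b < N ^ t, i * N ^ t + b < N ^ (t + 1) := by
      intro i hi b hb
      calc i * N ^ t + b < i * N ^ t + N ^ t := by omega
        _ = (i + 1) * N ^ t := by ring
        _ ≤ N * N ^ t := Nat.mul_le_mul_right _ hi
        _ = N ^ (t + 1) := by ring
    rcases List.mem_append.1 ha with ha | ha
    · obtain ⟨b, hb, rfl⟩ := List.mem_map.1 ha
      exact key _ h1.1 _ (ih c hc b hb)
    · obtain ⟨b, hb, rfl⟩ := List.mem_map.1 ha
      exact key _ h1.2 _ (ih c' hc' b hb)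

theorem hyp_width {G : List (ℕ × ℕ)} {N : ℕ} :
    ∀ t, ∀ C ∈ hyp G N t, C.length = 2 ^ t := by
  intro t
  induction t with
  | zero =>
    intro C hC
    simp only [hyp, List.mem_singleton] at hC
    subst hC
    simp
  | succ t ih =>
    intro C hC
    obtain ⟨e, he, c, hc, c', hc', rfl⟩ := mem_comp.1 hC
    simp only [List.length_append, List.length_map, ih c hc, ih c' hc']
    ring

theorem comp_length (G : List (ℕ × ℕ)) (N : ℕ) (H : List (List ℕ)) :
    (comp G N H).length = G.length * (H.length * H.length) := by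
  simp [comp, List.length_flatMap]

theorem hyp_length_pos {G : List (ℕ × ℕ)} {N : ℕ} (hG : 0 < G.length) :
    ∀ t, 0 < (hyp G N t).length := by
  intro t
  induction t with
  | zero => simp [hyp]
  | succ t ih =>
    rw [hyp, comp_length]
    positivity

theorem hyp_length_le {G : List (ℕ × ℕ)} {N B : ℕ} (hB : G.length ≤ 2 ^ B) :
    ∀ t, (hyp G N t).length ≤ 2 ^ (B * (2 ^ t - 1)) := by
  intro t
  induction t with
  | zero => simp [hyp]
  | succ t ih =>
    rw [hyp, comp_length]
    calc G.length * ((hyp G N t).length * (hyp G N t).length)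
        ≤ 2 ^ B * (2 ^ (B * (2 ^ t - 1)) * 2 ^ (B * (2 ^ t - 1))) :=
          Nat.mul_le_mul hB (Nat.mul_le_mul ih ih)
      _ = 2 ^ (B + (B * (2 ^ t - 1) + B * (2 ^ t - 1))) := by rw [pow_add, pow_add]
      _ = 2 ^ (B * (2 ^ (t + 1) - 1)) := by
          congr 1
          have h1 : 1 ≤ 2 ^ t := Nat.one_le_two_pow
          obtain ⟨s, hs⟩ : ∃ s, 2 ^ t = s + 1 := ⟨2 ^ t - 1, by omega⟩
          rw [pow_succ, hs]
          have : (s + 1) * 2 - 1 = 2 * s + 1 := by omega
          rw [this, Nat.add_sub_cancel]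
          ring

/-- products of hitting sets hit the composition -/
theorem comp_upper {G : List (ℕ × ℕ)} {N : ℕ} {H : List (List ℕ)} {X Y : Finset ℕ}
    (hX : ∀ e ∈ G, e.1 ∈ X ∨ e.2 ∈ X) (hY : Hits Y H) :
    ∃ Z : Finset ℕ, Hits Z (comp G N H) ∧ Z.card ≤ X.card * Y.card := by
  classical
  refine ⟨(X ×ˢ Y).image fun p => p.1 * N + p.2, ?_, ?_⟩
  · intro C hC
    obtain ⟨e, he, c, hc, c', hc', rfl⟩ := mem_comp.1 hC
    rcases hX e he with h | h
    · obtain ⟨a, ha, haY⟩ := hY c hc
      exact ⟨e.1 * N + a, List.mem_append_left _ (List.mem_map.2 ⟨a, ha, rfl⟩),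
        Finset.mem_image.2 ⟨(e.1, a), Finset.mem_product.2 ⟨h, haY⟩, rfl⟩⟩
    · obtain ⟨a, ha, haY⟩ := hY c' hc'
      exact ⟨e.2 * N + a, List.mem_append_right _ (List.mem_map.2 ⟨a, ha, rfl⟩),
        Finset.mem_image.2 ⟨(e.2, a), Finset.mem_product.2 ⟨h, haY⟩, rfl⟩⟩
  · exact Finset.card_image_le.trans (Finset.card_product _ _).le

/-- the least size of a hitting set of the composition is at least the product -/
theorem comp_lower {G : List (ℕ × ℕ)} {N : ℕ} {H : List (List ℕ)} {g k : ℕ}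
    (hH : ∀ C ∈ H, ∀ a ∈ C, a < N)
    (hX : ∀ X : Finset ℕ, (∀ e ∈ G, e.1 ∈ X ∨ e.2 ∈ X) → g ≤ X.card)
    (hY : ∀ Y : Finset ℕ, Hits Y H → k ≤ Y.card) (Z : Finset ℕ) (hZ : Hits Z (comp G N H)) :
    g * k ≤ Z.card := by
  classical
  -- the fibre of `Z` over `i`
  set fib : ℕ → Finset ℕ := fun i => (Z.filter fun z => z / N = i).image fun z => z % N with hfib
  set I : Finset ℕ := (Z.image fun z => z / N).filter fun i => Hits (fib i) H with hI
  by_cases hHe : H = []
  · -- then everything is trivial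
    have : k = 0 := by
      have := hY ∅ (by intro C hC; simp [hHe] at hC)
      simpa using this
    simp [this]
  have h1 : ∀ e ∈ G, e.1 ∈ I ∨ e.2 ∈ I := by
    intro e he
    by_contra hcon
    push Not at hcon
    have key : ∀ i, i ∉ I → ∃ c ∈ H, ∀ a ∈ c, i * N + a ∉ Z := by
      intro i hi
      by_contra hc
      push Not at hc
      apply hi
      rw [hI, Finset.mem_filter]
      have hhit : Hits (fib i) H := by
        intro C hC
        obtain ⟨a, ha, haZ⟩ := hc C hC
        have haN := hH C hC a ha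
        refine ⟨a, ha, ?_⟩
        rw [hfib]
        refine Finset.mem_image.2 ⟨i * N + a, Finset.mem_filter.2 ⟨haZ, ?_⟩, ?_⟩
        · rw [Nat.add_comm, Nat.add_mul_div_right _ _ (by omega), Nat.div_eq_of_lt haN, zero_add]
        · rw [Nat.add_comm, Nat.add_mul_mod_self_right, Nat.mod_eq_of_lt haN]
      refine ⟨?_, hhit⟩
      obtain ⟨C, hC⟩ := List.exists_mem_of_ne_nil _ hHe
      obtain ⟨a, ha, haZ⟩ := hc C hC
      have haN := hH C hC a ha
      refine Finset.mem_image.2 ⟨i * N + a, haZ, ?_⟩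
      rw [Nat.add_comm, Nat.add_mul_div_right _ _ (by omega), Nat.div_eq_of_lt haN, zero_add]
    obtain ⟨c, hc, hc2⟩ := key _ hcon.1
    obtain ⟨c', hc', hc2'⟩ := key _ hcon.2
    obtain ⟨a, ha, haZ⟩ := hZ _ (mem_comp.2 ⟨e, he, c, hc, c', hc', rfl⟩)
    rcases List.mem_append.1 ha with ha | ha
    · obtain ⟨b, hb, rfl⟩ := List.mem_map.1 ha
      exact hc2 b hb haZ
    · obtain ⟨b, hb, rfl⟩ := List.mem_map.1 ha
      exact hc2' b hb haZ
  have h2 : g ≤ I.card := hX I h1
  have h3 : ∀ i ∈ I, k ≤ (Z.filter fun z => z / N = i).card := by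
    intro i hi
    have := hY (fib i) (Finset.mem_filter.1 hi).2
    exact this.trans Finset.card_image_le
  calc g * k ≤ I.card * k := Nat.mul_le_mul_right _ h2
    _ = ∑ _i ∈ I, k := by rw [Finset.sum_const, smul_eq_mul]
    _ ≤ ∑ i ∈ I, (Z.filter fun z => z / N = i).card := Finset.sum_le_sum h3
    _ ≤ Z.card := by
      rw [← Finset.card_biUnion]
      · exact Finset.card_le_card fun z hz => by
          obtain ⟨i, _, hz⟩ := Finset.mem_biUnion.1 hz
          exact (Finset.mem_filter.1 hz).1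
      · intro i _ j _ hij
        rw [Function.onFun, Finset.disjoint_left]
        intro z hz hz'
        exact hij ((Finset.mem_filter.1 hz).2.symm.trans (Finset.mem_filter.1 hz').2)

theorem hyp_upper {G : List (ℕ × ℕ)} {N : ℕ} {X : Finset ℕ}
    (hX : ∀ e ∈ G, e.1 ∈ X ∨ e.2 ∈ X) :
    ∀ t, ∃ Z : Finset ℕ, Hits Z (hyp G N t) ∧ Z.card ≤ X.card ^ t := by
  intro t
  induction t with
  | zero =>
    refine ⟨{0}, ?_, by simp⟩
    intro C hC
    simp only [hyp, List.mem_singleton] at hC
    subst hC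
    exact ⟨0, by simp, by simp⟩
  | succ t ih =>
    obtain ⟨Y, hY, hYc⟩ := ih
    obtain ⟨Z, hZ, hZc⟩ := comp_upper (N := N ^ t) hX hY
    refine ⟨Z, hZ, hZc.trans ?_⟩
    rw [pow_succ, Nat.mul_comm]
    exact Nat.mul_le_mul_right _ hYc

theorem hyp_lower {G : List (ℕ × ℕ)} {N g : ℕ} (hG : ∀ e ∈ G, e.1 < N ∧ e.2 < N)
    (hX : ∀ X : Finset ℕ, (∀ e ∈ G, e.1 ∈ X ∨ e.2 ∈ X) → g ≤ X.card) :
    ∀ t, ∀ Z : Finset ℕ, Hits Z (hyp G N t) → g ^ t ≤ Z.card := by
  intro t
  induction t with
  | zero =>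
    intro Z hZ
    obtain ⟨a, ha, haZ⟩ := hZ [0] (by simp [hyp])
    rw [pow_zero]
    exact Finset.card_pos.2 ⟨a, haZ⟩
  | succ t ih =>
    intro Z hZ
    rw [pow_succ, Nat.mul_comm]
    exact comp_lower (hyp_lt hG t) hX ih Z hZ

/-! ### The base graph -/

/-- the edges of the conflict graph of a formula (in both orders) -/
def bE (φ : List Clause) : List (ℕ × ℕ) :=
  (List.range (3 * φ.length)).flatMap fun a =>
    ((List.range (3 * φ.length)).filter fun b => adj (fg φ) a b).map fun b => (a, b)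

theorem mem_bE {φ : List Clause} {e : ℕ × ℕ} : e ∈ bE φ ↔
    e.1 < 3 * φ.length ∧ e.2 < 3 * φ.length ∧ (gr (fg φ)).Adj e.1 e.2 := by
  obtain ⟨a, b⟩ := e
  simp only [bE, List.mem_flatMap, List.mem_range, List.mem_map, List.mem_filter, adj_iff,
    Prod.mk.injEq]
  constructor
  · rintro ⟨a', h1, b', ⟨h2, h3⟩, rfl, rfl⟩
    exact ⟨h1, h2, h3⟩
  · rintro ⟨h1, h2, h3⟩
    exact ⟨a, h1, b, ⟨h2, h3⟩, rfl, rfl⟩

theorem bE_length_pos {φ : List Clause} (hφ : φ ≠ []) : 0 < (bE φ).length := by
  have h1 : 0 < φ.length := List.length_pos_of_ne_nil hφ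
  have h2 : ((0, 1) : ℕ × ℕ) ∈ bE φ := by
    rw [mem_bE]
    refine ⟨by simp only; omega, by simp only; omega, ?_⟩
    unfold fg
    rw [mkG_adj, cf_iff]
    refine ⟨by simp, by simp only; omega, by simp only; omega, Or.inl (Or.inl (by simp))⟩
  exact List.length_pos_of_mem h2

theorem bE_length (φ : List Clause) : (bE φ).length ≤ 2 ^ (4 * φ.length) := by
  have h1 : (bE φ).length ≤ (3 * φ.length) * (3 * φ.length) := by
    unfold bE
    rw [List.length_flatMap]
    calc (List.map _ (List.range (3 * φ.length))).sum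
        ≤ (List.map (fun _ => 3 * φ.length) (List.range (3 * φ.length))).sum := by
          apply List.sum_le_sum
          intro a _
          rw [List.length_map]
          exact (List.length_filter_le _ _).trans (by rw [List.length_range])
      _ = (3 * φ.length) * (3 * φ.length) := by simp
  have h2 : 3 * φ.length ≤ 2 ^ (2 * φ.length) := by
    generalize φ.length = m
    induction m with
    | zero => simp
    | succ m ih =>
      have h3 : 2 ^ (2 * (m + 1)) = 4 * 2 ^ (2 * m) := by
        rw [Nat.mul_add, pow_add]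
        ring
      have : 1 ≤ 2 ^ (2 * m) := Nat.one_le_two_pow
      omega
  calc (bE φ).length ≤ (3 * φ.length) * (3 * φ.length) := h1
    _ ≤ 2 ^ (2 * φ.length) * 2 ^ (2 * φ.length) := Nat.mul_le_mul h2 h2
    _ = 2 ^ (4 * φ.length) := by rw [← pow_add]; congr 1; ring

theorem bE_upper {φ : List Clause} {A : List ℕ} (h : numSat φ A = φ.length) :
    ∃ X : Finset ℕ, (∀ e ∈ bE φ, e.1 ∈ X ∨ e.2 ∈ X) ∧ X.card ≤ 2 * φ.length := by
  classical
  obtain ⟨S, hS, hSl⟩ := fg_ge h
  rw [indep_iff] at hS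
  obtain ⟨h1, h2, h3⟩ := hS
  have hl : (fg φ).length = 3 * φ.length := by unfold fg; exact mkG_length _ _
  refine ⟨Finset.range (3 * φ.length) \ S.toFinset, ?_, ?_⟩
  · intro e he
    rw [mem_bE] at he
    by_contra hcon
    simp only [Finset.mem_sdiff, Finset.mem_range, List.mem_toFinset, not_or, not_and,
      not_not] at hcon
    exact h3 _ (hcon.1 he.1) _ (hcon.2 he.2.1) he.2.2
  · rw [Finset.card_sdiff_of_subset]
    · rw [Finset.card_range, List.toFinset_card_of_nodup h1, hSl]
      omega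
    · intro v hv
      rw [List.mem_toFinset] at hv
      rw [Finset.mem_range, ← hl]
      exact h2 v hv

theorem bE_lower {φ : List Clause} {r : ℕ} (h : ∀ A : List ℕ, numSat φ A + r ≤ φ.length)
    (X : Finset ℕ) (hX : ∀ e ∈ bE φ, e.1 ∈ X ∨ e.2 ∈ X) : 2 * φ.length + r ≤ X.card := by
  classical
  have hl : (fg φ).length = 3 * φ.length := by unfold fg; exact mkG_length _ _
  have hI : Indep (fg φ) (Finset.range (3 * φ.length) \ X).toList := by
    rw [indep_iff]
    refine ⟨Finset.nodup_toList _, ?_, ?_⟩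
    · intro v hv
      rw [Finset.mem_toList, Finset.mem_sdiff, Finset.mem_range] at hv
      rw [hl]
      exact hv.1
    · intro u hu v hv huv
      rw [Finset.mem_toList, Finset.mem_sdiff, Finset.mem_range] at hu hv
      rcases hX (u, v) (mem_bE.2 ⟨hu.1, hv.1, huv⟩) with h | h
      · exact hu.2 h
      · exact hv.2 h
  obtain ⟨A, hA⟩ := fg_le hI
  rw [Finset.length_toList] at hA
  have h1 := h A
  have h2 : 3 * φ.length ≤ (Finset.range (3 * φ.length) \ X).card + X.card := by
    have := Finset.card_le_card_sdiff_add_card (s := Finset.range (3 * φ.length)) (t := X)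
    rwa [Finset.card_range] at this
  omega

end Pool.Agent.R550.HS
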